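import Mathlib
set_option maxHeartbeats 400000
set_option linter.unusedSectionVars false

/-!
# A graphical cake with positive additive maximin-share rank

The graph has three hubs, and nine pendant edges `x_g y_g` (the goods) whose inner ends `x_g` are joined
to all three hubs.  Agent `i` has the value `w i g` spread uniformly over the pendant edge of good `g`,
where `w` is the instance of Feige, Sapir and Tauber for three agents and nine indivisible goods: each
agent can split the goods into three bundles of value `40`, but no assignment gives all agents `40`.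
A connected piece gets value only from goods `g` with `x_g` in the piece, or from a single good, so
no allocation of connected pieces gives each of the three agents its 1-out-of-3 maximin share.
-/

open MeasureTheory Set

namespace Pool.Agent.Results.MP_ee2dc8_co.MmsRankAddPos

/-- The values of the nine goods for the three agents. -/
def w : Fin 3 → Fin 9 → ℕ :=
  ![![1, 16, 23, 26, 4, 10, 12, 19, 9], ![1, 16, 22, 26, 4, 9, 13, 20, 9],
    ![1, 15, 23, 25, 4, 10, 13, 20, 9]]

/-- The balanced partitions of the three agents. -/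
def bb : Fin 3 → Fin 9 → Fin 3 :=
  ![![0, 0, 0, 1, 1, 1, 2, 2, 2], ![0, 1, 2, 0, 1, 2, 0, 1, 2], ![0, 1, 2, 1, 2, 0, 2, 0, 0]]

def chk : List (ℕ × ℕ × ℕ) → ℕ → ℕ → ℕ → Bool
  | [], r, c, u => Nat.blt r 40 || Nat.blt c 40 || Nat.blt u 40
  | x :: l, r, c, u => chk l (r + x.1) c u && chk l r (c + x.2.1) u && chk l r c (u + x.2.2)

def sel (i : Fin 3) (x : ℕ × ℕ × ℕ) : ℕ := if i = 0 then x.1 else if i = 1 then x.2.1 else x.2.2

def SS (i : Fin 3) : List (ℕ × ℕ × ℕ) → (ℕ → Fin 3) → ℕ
  | [], _ => 0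
  | x :: l, a => (if a 0 = i then sel i x else 0) + SS i l (fun n => a (n + 1))

theorem chk_spec (l : List (ℕ × ℕ × ℕ)) : ∀ (r c u : ℕ), chk l r c u = true → ∀ a : ℕ → Fin 3,
    r + SS 0 l a < 40 ∨ c + SS 1 l a < 40 ∨ u + SS 2 l a < 40 := by
  induction l with
  | nil =>
    intro r c u h a
    simp only [chk, Bool.or_eq_true, Nat.blt_eq] at h
    simp only [SS, add_zero]
    tauto
  | cons x l ih =>
    intro r c u h a
    simp only [chk, Bool.and_eq_true] at h
    obtain ⟨⟨h1, h2⟩, h3⟩ := h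
    have h012 : ∀ i : Fin 3, i = 0 ∨ i = 1 ∨ i = 2 := by decide
    simp only [SS]
    rcases h012 (a 0) with h0 | h0 | h0
    · have := ih _ _ _ h1 (fun n => a (n + 1))
      rw [h0]
      simp only [sel]
      simp at this ⊢
      omega
    · have := ih _ _ _ h2 (fun n => a (n + 1))
      rw [h0]
      simp only [sel]
      simp at this ⊢
      omega
    · have := ih _ _ _ h3 (fun n => a (n + 1))
      rw [h0]
      simp only [sel]
      simp at this ⊢
      omega

def items : List (ℕ × ℕ × ℕ) :=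
  [(1, 1, 1), (16, 16, 15), (23, 22, 23), (26, 26, 25), (4, 4, 4), (10, 9, 10), (12, 13, 13),
    (19, 20, 20), (9, 9, 9)]

theorem chk_items : chk items 0 0 0 = true := by decide +kernel

theorem comb (a : Fin 9 → Fin 3) : ∃ i : Fin 3, (∑ g, if a g = i then w i g else 0) < 40 := by
  have h := chk_spec items 0 0 0 chk_items (fun n => if h : n < 9 then a ⟨n, h⟩ else 0)
  simp only [items, SS, sel, zero_add] at h
  rcases h with h | h | h
  · refine ⟨0, ?_⟩
    simp [Fin.sum_univ_succ, w] at h ⊢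
    exact h
  · refine ⟨1, ?_⟩
    simp [Fin.sum_univ_succ, w] at h ⊢
    exact h
  · refine ⟨2, ?_⟩
    simp [Fin.sum_univ_succ, w] at h ⊢
    exact h

theorem bal : ∀ i j : Fin 3, (∑ g, if bb i g = j then w i g else 0) = 40 := by decide

theorem wmax : ∀ (i : Fin 3) (g : Fin 9), w i g < 40 := by decide



section general
variable {V : Type} [Fintype V] [DecidableEq V]

/-- The point at parameter `t` of the edge from `u` to `v`, in the geometric realization. -/
noncomputable def ept (u v : V) (t : ℝ) : V → ℝ :=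
  fun c => (1 - t) * (if c = u then 1 else 0) + t * (if c = v then 1 else 0)

/-- The vertex `v` as a point. -/
noncomputable def vpt (v : V) : V → ℝ := fun c => if c = v then 1 else 0

/-- The graphical cake: the geometric realization of the graph `G` in `ℝ^V`. -/
def cake (G : SimpleGraph V) : Set (V → ℝ) :=
  {p | (∃ v, p = vpt v) ∨ ∃ u v, G.Adj u v ∧ ∃ t ∈ Icc (0 : ℝ) 1, p = ept u v t}

/-- A piece: a subset of the cake meeting each edge in a finite union of intervals. -/
def IsPiece (G : SimpleGraph V) (S : Set (V → ℝ)) : Prop :=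
  S ⊆ cake G ∧ ∀ u v, G.Adj u v → ∃ (ι : Type) (_ : Finite ι) (I : ι → Set ℝ),
    (∀ l, (I l).OrdConnected) ∧ {t | t ∈ Icc (0 : ℝ) 1 ∧ ept u v t ∈ S} = ⋃ l, I l

/-- Connectedness of a piece: any two points are joined by a path inside the piece. -/
def Conn (S : Set (V → ℝ)) : Prop := ∀ p ∈ S, ∀ q ∈ S, JoinedIn S p q

/-- A partition of the cake into `k` connected pieces. -/
def IsPartition (G : SimpleGraph V) {k : ℕ} (P : Fin k → Set (V → ℝ)) : Prop :=
  (∀ j, IsPiece G (P j) ∧ Conn (P j)) ∧ (∀ i j, i ≠ j → Disjoint (P i) (P j)) ∧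
    ⋃ j, P j = cake G

theorem continuous_ept (u v : V) : Continuous (ept u v) := by
  refine continuous_pi fun c => ?_
  unfold ept
  fun_prop

theorem ept_rev (u v : V) (t : ℝ) : ept u v t = ept v u (1 - t) := by
  funext c
  unfold ept
  ring

theorem ept_zero (u v : V) : ept u v 0 = vpt u := by
  funext c; unfold ept vpt; ring

theorem ept_one (u v : V) : ept u v 1 = vpt v := by
  funext c; unfold ept vpt; ring

theorem cake_closed (G : SimpleGraph V) : IsClosed (cake G) := by
  have e : cake G = (⋃ v, {vpt v}) ∪ ⋃ u, ⋃ v, ⋃ (_ : G.Adj u v), ept u v '' Icc (0 : ℝ) 1 := by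
    ext p
    simp only [cake, mem_ofPred_eq, mem_union, mem_iUnion, mem_singleton_iff, mem_image,
      exists_prop]
    constructor
    · rintro (⟨v, h⟩ | ⟨u, v, h, t, ht, hp⟩)
      · exact Or.inl ⟨v, h⟩
      · exact Or.inr ⟨u, v, h, t, ht, hp.symm⟩
    · rintro (⟨v, h⟩ | ⟨u, v, h, t, ht, hp⟩)
      · exact Or.inl ⟨v, h⟩
      · exact Or.inr ⟨u, v, h, t, ht, hp.symm⟩
  rw [e]
  refine IsClosed.union (isClosed_iUnion_of_finite fun v => isClosed_singleton) ?_
  refine isClosed_iUnion_of_finite fun u => isClosed_iUnion_of_finite fun v =>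
    isClosed_iUnion_of_finite fun _ => ?_
  exact (isCompact_Icc.image (continuous_ept u v)).isClosed

theorem Conn.isPreconnected {S : Set (V → ℝ)} (h : Conn S) : IsPreconnected S := by
  rcases S.eq_empty_or_nonempty with h0 | ⟨x, hx⟩
  · rw [h0]; exact isPreconnected_empty
  · have : IsPathConnected S := ⟨x, hx, fun {y} hy => h x hx y hy⟩
    exact this.isConnected.isPreconnected

/-- moving along an edge. -/
theorem joined_edge {S : Set (V → ℝ)} (u v : V) (s t : ℝ)
    (h : ∀ r ∈ Icc (min s t) (max s t), ept u v r ∈ S) : JoinedIn S (ept u v s) (ept u v t) := by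
  have hpc : IsPathConnected (ept u v '' Icc (min s t) (max s t)) := by
    have hne : (Icc (min s t) (max s t)).Nonempty := ⟨s, min_le_left _ _, le_max_left _ _⟩
    exact ((convex_Icc _ _).isPathConnected hne).image (continuous_ept u v)
  have h1 : ept u v s ∈ ept u v '' Icc (min s t) (max s t) :=
    ⟨s, ⟨min_le_left _ _, le_max_left _ _⟩, rfl⟩
  have h2 : ept u v t ∈ ept u v '' Icc (min s t) (max s t) :=
    ⟨t, ⟨min_le_right _ _, le_max_right _ _⟩, rfl⟩
  refine (hpc.joinedIn _ h1 _ h2).mono ?_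
  rintro _ ⟨r, hr, rfl⟩
  exact h r hr

end general

/-- Vertices: three hubs, and nine pendant edges. -/
abbrev Vt := Fin 3 ⊕ (Fin 9 ⊕ Fin 9)

def hub (j : Fin 3) : Vt := Sum.inl j
def xg (g : Fin 9) : Vt := Sum.inr (Sum.inl g)
def yg (g : Fin 9) : Vt := Sum.inr (Sum.inr g)

def adjR : Vt → Vt → Prop
  | Sum.inl _, Sum.inr (Sum.inl _) => True
  | Sum.inr (Sum.inl _), Sum.inl _ => True
  | Sum.inr (Sum.inl g), Sum.inr (Sum.inr g') => g = g'
  | Sum.inr (Sum.inr g), Sum.inr (Sum.inl g') => g = g'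
  | _, _ => False

/-- The graph. -/
def HG : SimpleGraph Vt where
  Adj := adjR
  symm := ⟨by rintro (_ | _ | _) (_ | _ | _) h <;> simp_all [adjR]⟩
  loopless := ⟨by rintro (_ | _ | _) h <;> simp_all [adjR]⟩

theorem ehx_hub (j j' : Fin 3) (g : Fin 9) (t : ℝ) :
    ept (hub j) (xg g) t (hub j') = if j' = j then 1 - t else 0 := by
  simp only [ept, hub, xg, Sum.inl.injEq, reduceCtorEq, if_false, mul_zero, add_zero, mul_ite,
    mul_one]

theorem ehx_x (j : Fin 3) (g g' : Fin 9) (t : ℝ) :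
    ept (hub j) (xg g) t (xg g') = if g' = g then t else 0 := by
  simp only [ept, hub, xg, Sum.inl.injEq, Sum.inr.injEq, reduceCtorEq, if_false, mul_zero,
    zero_add, mul_ite, mul_one]

theorem ehx_y (j : Fin 3) (g g' : Fin 9) (t : ℝ) :
    ept (hub j) (xg g) t (yg g') = 0 := by
  simp only [ept, hub, xg, yg, Sum.inr.injEq, reduceCtorEq, if_false, mul_zero, add_zero]

theorem exy_hub (j : Fin 3) (g : Fin 9) (t : ℝ) :
    ept (xg g) (yg g) t (hub j) = 0 := by
  simp only [ept, hub, xg, yg, reduceCtorEq, if_false, mul_zero, add_zero]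

theorem exy_x (g g' : Fin 9) (t : ℝ) :
    ept (xg g) (yg g) t (xg g') = if g' = g then 1 - t else 0 := by
  simp only [ept, xg, yg, Sum.inl.injEq, Sum.inr.injEq, reduceCtorEq, if_false, mul_zero,
    add_zero, mul_ite, mul_one]

theorem exy_y (g g' : Fin 9) (t : ℝ) :
    ept (xg g) (yg g) t (yg g') = if g' = g then t else 0 := by
  simp only [ept, xg, yg, Sum.inr.injEq, reduceCtorEq, if_false, mul_zero,
    zero_add, mul_ite, mul_one]

theorem adj_hx (j : Fin 3) (g : Fin 9) : HG.Adj (hub j) (xg g) := trivial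
theorem adj_xy (g : Fin 9) : HG.Adj (xg g) (yg g) := rfl

theorem mem_hx (j : Fin 3) (g : Fin 9) (t : ℝ) (ht : t ∈ Icc (0 : ℝ) 1) :
    ept (hub j) (xg g) t ∈ cake HG := Or.inr ⟨_, _, adj_hx j g, t, ht, rfl⟩

theorem mem_xy (g : Fin 9) (t : ℝ) (ht : t ∈ Icc (0 : ℝ) 1) :
    ept (xg g) (yg g) t ∈ cake HG := Or.inr ⟨_, _, adj_xy g, t, ht, rfl⟩

/-- classification of the points of the cake. -/
theorem classify (p : Vt → ℝ) (hp : p ∈ cake HG) :
    (∃ j g, ∃ t ∈ Icc (0 : ℝ) 1, p = ept (hub j) (xg g) t) ∨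
      ∃ g, ∃ t ∈ Icc (0 : ℝ) 1, p = ept (xg g) (yg g) t := by
  have hrev : ∀ t ∈ Icc (0 : ℝ) 1, 1 - t ∈ Icc (0 : ℝ) 1 := fun t ht =>
    ⟨by linarith [ht.2], by linarith [ht.1]⟩
  rcases hp with ⟨v, rfl⟩ | ⟨u, v, huv, t, ht, rfl⟩
  · rcases v with j | g | g
    · exact Or.inl ⟨j, 0, 0, ⟨le_rfl, zero_le_one⟩, (ept_zero (hub j) (xg 0)).symm⟩
    · exact Or.inr ⟨g, 0, ⟨le_rfl, zero_le_one⟩, (ept_zero (xg g) (yg g)).symm⟩
    · exact Or.inr ⟨g, 1, ⟨zero_le_one, le_rfl⟩, (ept_one (xg g) (yg g)).symm⟩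
  · rcases u with j | g | g <;> rcases v with j' | g' | g'
    · exact absurd huv id
    · exact Or.inl ⟨j, g', t, ht, rfl⟩
    · exact absurd huv id
    · exact Or.inl ⟨j', g, 1 - t, hrev t ht, ept_rev _ _ _⟩
    · exact absurd huv id
    · have h : g = g' := huv
      subst h
      exact Or.inr ⟨g, t, ht, rfl⟩
    · exact absurd huv id
    · have h : g = g' := huv
      subst h
      exact Or.inr ⟨g, 1 - t, hrev t ht, ept_rev _ _ _⟩
    · exact absurd huv id



/-- dichotomy at a pendant edge. -/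
theorem dich (X : Set (Vt → ℝ)) (hX : X ⊆ cake HG) (hc : IsPreconnected X) (g : Fin 9)
    (hx : vpt (xg g) ∉ X) (hex : ∃ p ∈ X, 0 < p (yg g)) : ∀ p ∈ X, 0 < p (yg g) := by
  have hU : IsOpen {p : Vt → ℝ | 0 < p (yg g)} :=
    isOpen_lt continuous_const (continuous_apply _)
  have hW : IsOpen {p : Vt → ℝ | p (xg g) + p (yg g) < 1} :=
    isOpen_lt (by fun_prop) continuous_const
  have hcase : ∀ p ∈ X, (0 < p (yg g) ∧ p (xg g) + p (yg g) = 1) ∨
      (p (yg g) = 0 ∧ p (xg g) + p (yg g) < 1) := by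
    intro p hp
    rcases classify p (hX hp) with ⟨j, g', t, ht, rfl⟩ | ⟨g', t, ht, rfl⟩
    · right
      rw [ehx_x, ehx_y]
      refine ⟨rfl, ?_⟩
      split_ifs with h
      · rcases eq_or_lt_of_le ht.2 with h1 | h1
        · exfalso
          apply hx
          rw [h1, ept_one, ← h] at hp
          exact hp
        · linarith
      · norm_num
    · rw [exy_x, exy_y]
      by_cases h : g = g'
      · rw [if_pos h, if_pos h]
        left
        refine ⟨?_, by ring⟩
        rcases eq_or_lt_of_le ht.1 with h1 | h1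
        · exfalso
          apply hx
          rw [← h1, ept_zero, ← h] at hp
          exact hp
        · exact h1
      · rw [if_neg h, if_neg h]
        right
        norm_num
  intro p hp
  by_contra hcon
  have h1 : (X ∩ {p : Vt → ℝ | 0 < p (yg g)}).Nonempty := hex
  have h2 : (X ∩ {p : Vt → ℝ | p (xg g) + p (yg g) < 1}).Nonempty := by
    refine ⟨p, hp, ?_⟩
    rcases hcase p hp with h | h
    · exact absurd h.1 hcon
    · exact h.2
  have h3 : X ⊆ {p : Vt → ℝ | 0 < p (yg g)} ∪ {p : Vt → ℝ | p (xg g) + p (yg g) < 1} := by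
    intro q hq
    rcases hcase q hq with h | h
    · exact Or.inl h.1
    · exact Or.inr h.2
  obtain ⟨q, hq, hq1, hq2⟩ := hc _ _ hU hW h3 h1 h2
  have hq1' : 0 < q (yg g) := hq1
  have hq2' : q (xg g) + q (yg g) < 1 := hq2
  rcases hcase q hq with h | h
  · linarith [h.2]
  · linarith [h.1]

theorem y_zero (p : Vt → ℝ) (hp : p ∈ cake HG) (g g' : Fin 9) (h : 0 < p (yg g)) (hne : g' ≠ g) :
    p (yg g') ≤ 0 := by
  rcases classify p hp with ⟨j, g1, t, ht, rfl⟩ | ⟨g1, t, ht, rfl⟩
  · rw [ehx_y]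
  · rw [exy_y] at h ⊢
    split_ifs at h with h1
    · rw [if_neg (fun h2 => hne (h2.trans h1.symm))]
    · exact absurd h (lt_irrefl 0)

/-- A connected piece only gets value from the goods whose attaching vertex it contains, or from a
single good. -/
theorem support (X : Set (Vt → ℝ)) (hX : X ⊆ cake HG) (hc : IsPreconnected X) :
    ∃ B : Finset (Fin 9), (∀ p ∈ X, ∀ g ∉ B, p (yg g) ≤ 0) ∧
      ((∀ g ∈ B, vpt (xg g) ∈ X) ∨ ∃ g, B = {g}) := by
  classical
  by_cases hex : ∃ g, vpt (xg g) ∉ X ∧ ∃ p ∈ X, 0 < p (yg g)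
  · obtain ⟨g, hg, hp⟩ := hex
    refine ⟨{g}, fun p hpX g' hg' => ?_, Or.inr ⟨g, rfl⟩⟩
    rw [Finset.mem_singleton] at hg'
    exact y_zero p (hX hpX) g g' (dich X hX hc g hg hp p hpX) hg'
  · refine ⟨Finset.univ.filter fun g => vpt (xg g) ∈ X, fun p hpX g hg => ?_, Or.inl ?_⟩
    · rw [Finset.mem_filter] at hg
      by_contra hlt
      exact hex ⟨g, fun h => hg ⟨Finset.mem_univ _, h⟩, p, hpX, lt_of_not_ge hlt⟩
    · intro g hg
      exact (Finset.mem_filter.mp hg).2

/-- The piece of the partition given by `b` that contains the hub `j`. -/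
def PP (b : Fin 9 → Fin 3) (j : Fin 3) : Set (Vt → ℝ) :=
  {p | p ∈ cake HG ∧ (0 < p (hub j) ∨ ∃ g, b g = j ∧ p (xg g) + p (yg g) = 1)}

theorem oc_pos (a c : ℝ) : ({t | t ∈ Icc (0 : ℝ) 1 ∧ 0 < a + t * c} : Set ℝ).OrdConnected := by
  refine ⟨fun x hx y hy z hz => ⟨⟨hx.1.1.trans hz.1, hz.2.trans hy.1.2⟩, ?_⟩⟩
  have h1 : 0 < a + x * c := hx.2
  have h2 : 0 < a + y * c := hy.2
  rcases le_total 0 c with h | h
  · have := mul_le_mul_of_nonneg_right hz.1 h
    linarith
  · have := mul_le_mul_of_nonpos_right hz.2 h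
    linarith

theorem oc_eq (a c : ℝ) : ({t | t ∈ Icc (0 : ℝ) 1 ∧ a + t * c = 1} : Set ℝ).OrdConnected := by
  refine ⟨fun x hx y hy z hz => ⟨⟨hx.1.1.trans hz.1, hz.2.trans hy.1.2⟩, ?_⟩⟩
  have h1 : a + x * c = 1 := hx.2
  have h2 : a + y * c = 1 := hy.2
  rcases le_total 0 c with h | h
  · have h3 := mul_le_mul_of_nonneg_right hz.1 h
    have h4 := mul_le_mul_of_nonneg_right hz.2 h
    linarith
  · have h3 := mul_le_mul_of_nonpos_right hz.1 h
    have h4 := mul_le_mul_of_nonpos_right hz.2 h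
    linarith

theorem PP_piece (b : Fin 9 → Fin 3) (j : Fin 3) : IsPiece HG (PP b j) := by
  refine ⟨fun p hp => hp.1, fun u v huv => ?_⟩
  refine ⟨Option (Fin 9), inferInstance, fun o => match o with
    | none => {t | t ∈ Icc (0 : ℝ) 1 ∧ 0 < ept u v t (hub j)}
    | some g => {t | t ∈ Icc (0 : ℝ) 1 ∧ b g = j ∧ ept u v t (xg g) + ept u v t (yg g) = 1}, ?_, ?_⟩
  · intro o
    have haff : ∀ c : Vt, ∀ t, ept u v t c = (if c = u then (1 : ℝ) else 0) +
        t * ((if c = v then (1 : ℝ) else 0) - (if c = u then (1 : ℝ) else 0)) := by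
      intro c t; unfold ept; ring
    rcases o with _ | g
    · show ({t | t ∈ Icc (0 : ℝ) 1 ∧ 0 < ept u v t (hub j)} : Set ℝ).OrdConnected
      simp only [haff]
      exact oc_pos _ _
    · show ({t | t ∈ Icc (0 : ℝ) 1 ∧ b g = j ∧ ept u v t (xg g) + ept u v t (yg g) = 1} :
        Set ℝ).OrdConnected
      by_cases hb : b g = j
      · have e : ({t | t ∈ Icc (0 : ℝ) 1 ∧ b g = j ∧ ept u v t (xg g) + ept u v t (yg g) = 1} :
            Set ℝ) = {t | t ∈ Icc (0 : ℝ) 1 ∧ ((if xg g = u then (1 : ℝ) else 0) +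
              (if yg g = u then (1 : ℝ) else 0)) + t * (((if xg g = v then (1 : ℝ) else 0) -
              (if xg g = u then (1 : ℝ) else 0)) + ((if yg g = v then (1 : ℝ) else 0) -
              (if yg g = u then (1 : ℝ) else 0))) = 1} := by
          ext t
          constructor
          · rintro ⟨h1, -, h2⟩
            rw [haff, haff] at h2
            exact ⟨h1, by linear_combination h2⟩
          · rintro ⟨h1, h2⟩
            refine ⟨h1, hb, ?_⟩
            rw [haff, haff]; linear_combination h2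
        rw [e]
        exact oc_eq _ _
      · have e : ({t | t ∈ Icc (0 : ℝ) 1 ∧ b g = j ∧ ept u v t (xg g) + ept u v t (yg g) = 1} :
            Set ℝ) = ∅ := by
          ext t
          constructor
          · rintro ⟨-, h, -⟩; exact absurd h hb
          · intro h; exact absurd h (notMem_empty _)
        rw [e]
        exact ordConnected_empty
  · ext t
    rw [mem_iUnion]
    constructor
    · rintro ⟨ht, -, h | ⟨g, hg, h⟩⟩
      · exact ⟨none, ht, h⟩
      · exact ⟨some g, ht, hg, h⟩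
    · rintro ⟨o, ho⟩
      rcases o with _ | g
      · exact ⟨ho.1, Or.inr ⟨u, v, huv, t, ho.1, rfl⟩, Or.inl ho.2⟩
      · exact ⟨ho.1, Or.inr ⟨u, v, huv, t, ho.1, rfl⟩, Or.inr ⟨g, ho.2.1, ho.2.2⟩⟩

theorem PP_hub (b : Fin 9 → Fin 3) (j : Fin 3) (g : Fin 9) (t : ℝ) (ht : t ∈ Ico (0 : ℝ) 1) :
    ept (hub j) (xg g) t ∈ PP b j := by
  refine ⟨mem_hx j g t ⟨ht.1, ht.2.le⟩, Or.inl ?_⟩
  rw [ehx_hub, if_pos rfl]
  linarith [ht.2]

theorem PP_pend (b : Fin 9 → Fin 3) (g : Fin 9) (t : ℝ) (ht : t ∈ Icc (0 : ℝ) 1) :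
    ept (xg g) (yg g) t ∈ PP b (b g) := by
  refine ⟨mem_xy g t ht, Or.inr ⟨g, rfl, ?_⟩⟩
  rw [exy_x, exy_y, if_pos rfl, if_pos rfl]
  ring

theorem PP_conn (b : Fin 9 → Fin 3) (j : Fin 3) : Conn (PP b j) := by
  have key : ∀ p ∈ PP b j, JoinedIn (PP b j) p (vpt (hub j)) := by
    rintro p ⟨hp, hp'⟩
    rcases classify p hp with ⟨j1, g1, t, ht, rfl⟩ | ⟨g1, t, ht, rfl⟩
    · -- on an edge hub j1 -- x g1
      by_cases h : j1 = j ∧ t < 1
      · obtain ⟨rfl, ht1⟩ := h
        rw [← ept_zero (hub j1) (xg g1)]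
        refine joined_edge _ _ t 0 fun r hr => ?_
        rw [min_eq_right ht.1, max_eq_left ht.1] at hr
        exact PP_hub b j1 g1 r ⟨hr.1, hr.2.trans_lt ht1⟩
      · -- then t = 1 and b g1 = j
        have hmain : t = 1 ∧ b g1 = j := by
          rcases hp' with h1 | ⟨g, hg, h1⟩
          · rw [ehx_hub] at h1
            split_ifs at h1 with h2
            · exact absurd ⟨h2.symm, by linarith⟩ h
            · exact absurd h1 (lt_irrefl 0)
          · rw [ehx_x, ehx_y, add_zero] at h1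
            split_ifs at h1 with h2
            · rw [h2] at hg; exact ⟨h1, hg⟩
            · exact absurd h1 (by norm_num)
        obtain ⟨ht1, hb⟩ := hmain
        rw [ht1, ept_one, ← ept_one (hub j) (xg g1), ← ept_zero (hub j) (xg g1)]
        refine joined_edge _ _ 1 0 fun r hr => ?_
        rw [min_eq_right zero_le_one, max_eq_left zero_le_one] at hr
        rcases eq_or_lt_of_le hr.2 with h2 | h2
        · rw [h2, ept_one, ← ept_zero (xg g1) (yg g1), ← hb]
          exact PP_pend b g1 0 ⟨le_rfl, zero_le_one⟩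
        · exact PP_hub b j g1 r ⟨hr.1, h2⟩
    · have hb : b g1 = j := by
        rcases hp' with h1 | ⟨g, hg, h1⟩
        · rw [exy_hub] at h1; exact absurd h1 (lt_irrefl 0)
        · rw [exy_x, exy_y] at h1
          by_cases h2 : g = g1
          · rw [h2] at hg; exact hg
          · rw [if_neg h2, if_neg h2] at h1; norm_num at h1
      have s1 : JoinedIn (PP b j) (ept (xg g1) (yg g1) t) (ept (xg g1) (yg g1) 0) := by
        refine joined_edge _ _ t 0 fun r hr => ?_
        rw [min_eq_right ht.1, max_eq_left ht.1] at hr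
        rw [← hb]
        exact PP_pend b g1 r ⟨hr.1, hr.2.trans ht.2⟩
      have s2 : JoinedIn (PP b j) (ept (hub j) (xg g1) 1) (ept (hub j) (xg g1) 0) := by
        refine joined_edge _ _ 1 0 fun r hr => ?_
        rw [min_eq_right zero_le_one, max_eq_left zero_le_one] at hr
        rcases eq_or_lt_of_le hr.2 with h2 | h2
        · rw [h2, ept_one, ← ept_zero (xg g1) (yg g1), ← hb]
          exact PP_pend b g1 0 ⟨le_rfl, zero_le_one⟩
        · exact PP_hub b j g1 r ⟨hr.1, h2⟩
      rw [ept_one, ept_zero] at s2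
      rw [ept_zero] at s1
      exact s1.trans s2
  intro p hp q hq
  exact (key p hp).trans (key q hq).symm

theorem PP_partition (b : Fin 9 → Fin 3) : IsPartition HG (PP b) := by
  refine ⟨fun j => ⟨PP_piece b j, PP_conn b j⟩, ?_, ?_⟩
  · intro j j' hjj'
    rw [Set.disjoint_left]
    rintro p ⟨hp, h1⟩ ⟨-, h2⟩
    rcases classify p hp with ⟨j1, g1, t, ht, rfl⟩ | ⟨g1, t, ht, rfl⟩
    · simp only [ehx_hub, ehx_x, ehx_y, add_zero] at h1 h2
      rcases h1 with h1 | ⟨g, hg, h1⟩ <;> rcases h2 with h2 | ⟨g', hg', h2⟩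
      · split_ifs at h1 h2 with a1 a2
        · exact hjj' (a1.trans a2.symm)
        all_goals first | exact absurd h1 (lt_irrefl 0) | exact absurd h2 (lt_irrefl 0)
      · split_ifs at h1 h2 with a1 a2
        all_goals first | linarith | exact absurd h1 (lt_irrefl 0) | norm_num at h2
      · split_ifs at h1 h2 with a1 a2
        all_goals first | linarith | exact absurd h2 (lt_irrefl 0) | norm_num at h1
      · have a1 : g = g1 := by
          by_contra h
          rw [if_neg h] at h1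
          norm_num at h1
        have a2 : g' = g1 := by
          by_contra h
          rw [if_neg h] at h2
          norm_num at h2
        exact hjj' (by rw [← hg, ← hg', a1, a2])
    · simp only [exy_hub, exy_x, exy_y, lt_irrefl, false_or] at h1 h2
      obtain ⟨g, hg, h1⟩ := h1
      obtain ⟨g', hg', h2⟩ := h2
      have a1 : g = g1 := by
        by_contra h
        rw [if_neg h, if_neg h] at h1
        norm_num at h1
      have a2 : g' = g1 := by
        by_contra h
        rw [if_neg h, if_neg h] at h2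
        norm_num at h2
      exact hjj' (by rw [← hg, ← hg', a1, a2])
  · ext p
    rw [mem_iUnion]
    constructor
    · rintro ⟨j, hj⟩; exact hj.1
    · intro hp
      rcases classify p hp with ⟨j1, g1, t, ht, rfl⟩ | ⟨g1, t, ht, rfl⟩
      · rcases eq_or_lt_of_le ht.2 with h | h
        · refine ⟨b g1, ?_⟩
          rw [h, ept_one, ← ept_zero (xg g1) (yg g1)]
          exact PP_pend b g1 0 ⟨le_rfl, zero_le_one⟩
        · exact ⟨j1, PP_hub b j1 g1 t ⟨ht.1, h⟩⟩
      · exact ⟨b g1, PP_pend b g1 t ht⟩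



/-- The measure of agent `i`: for each good `g`, the value `w i g` spread uniformly over the pendant
edge of `g`. -/
noncomputable def mu (i : Fin 3) : Measure (Vt → ℝ) :=
  ∑ g : Fin 9, (w i g : ENNReal) •
    Measure.map (ept (xg g) (yg g)) (volume.restrict (Icc (0 : ℝ) 1))

theorem mu_apply (i : Fin 3) (S : Set (Vt → ℝ)) (hS : MeasurableSet S) :
    mu i S = ∑ g : Fin 9, (w i g : ENNReal) *
      volume (ept (xg g) (yg g) ⁻¹' S ∩ Icc (0 : ℝ) 1) := by
  unfold mu
  rw [Measure.finsetSum_apply]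
  refine Finset.sum_congr rfl fun g _ => ?_
  rw [Measure.smul_apply, smul_eq_mul,
    Measure.map_apply (continuous_ept _ _).measurable hS,
    Measure.restrict_apply ((continuous_ept _ _).measurable hS)]

theorem mu_finite (i : Fin 3) : IsFiniteMeasure (mu i) := by
  refine ⟨?_⟩
  rw [mu_apply i univ MeasurableSet.univ]
  refine ENNReal.sum_lt_top.mpr fun g _ => ?_
  refine ENNReal.mul_lt_top (by simp) ?_
  exact (measure_mono inter_subset_right).trans_lt (by simp)

theorem mu_atom (i : Fin 3) (p : Vt → ℝ) : mu i {p} = 0 := by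
  rw [mu_apply i {p} (measurableSet_singleton p)]
  refine Finset.sum_eq_zero fun g _ => ?_
  have : volume (ept (xg g) (yg g) ⁻¹' {p} ∩ Icc (0 : ℝ) 1) = 0 := by
    refine measure_mono_null (t := {p (yg g)}) ?_ (by simp)
    rintro t ⟨ht, -⟩
    have h : ept (xg g) (yg g) t = p := ht
    rw [mem_singleton_iff, ← h, exy_y, if_pos rfl]
  rw [this, mul_zero]

theorem mu_cake (i : Fin 3) : mu i (cake HG)ᶜ = 0 := by
  rw [mu_apply i _ (cake_closed HG).measurableSet.compl]
  refine Finset.sum_eq_zero fun g _ => ?_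
  have : ept (xg g) (yg g) ⁻¹' (cake HG)ᶜ ∩ Icc (0 : ℝ) 1 = ∅ := by
    ext t
    constructor
    · rintro ⟨h1, h2⟩
      exact absurd (mem_xy g t h2) h1
    · intro h; exact absurd h (notMem_empty _)
  rw [this, measure_empty, mul_zero]

theorem mu_upper (i : Fin 3) (X : Set (Vt → ℝ)) (B : Finset (Fin 9))
    (h : ∀ p ∈ X, ∀ g ∉ B, p (yg g) ≤ 0) : mu i X ≤ ((∑ g ∈ B, w i g : ℕ) : ENNReal) := by
  classical
  set T : Set (Vt → ℝ) := {p | ∀ g ∉ B, p (yg g) ≤ 0} with hT
  have hTc : IsClosed T := by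
    rw [hT]
    simp only [ofPred_forall]
    exact isClosed_iInter fun g => isClosed_iInter fun _ =>
      isClosed_le (continuous_apply _) continuous_const
  refine (measure_mono (show X ⊆ T from fun p hp => h p hp)).trans ?_
  rw [mu_apply i T hTc.measurableSet]
  have hle : ∀ g : Fin 9, (w i g : ENNReal) *
      volume (ept (xg g) (yg g) ⁻¹' T ∩ Icc (0 : ℝ) 1) ≤
      if g ∈ B then (w i g : ENNReal) else 0 := by
    intro g
    by_cases hg : g ∈ B
    · rw [if_pos hg]
      calc (w i g : ENNReal) * volume (ept (xg g) (yg g) ⁻¹' T ∩ Icc (0 : ℝ) 1)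
          ≤ (w i g : ENNReal) * 1 := by
            gcongr
            refine (measure_mono inter_subset_right).trans ?_
            simp
        _ = _ := mul_one _
    · rw [if_neg hg]
      have : volume (ept (xg g) (yg g) ⁻¹' T ∩ Icc (0 : ℝ) 1) = 0 := by
        refine measure_mono_null (t := {0}) ?_ (by simp)
        rintro t ⟨ht, ht1⟩
        have h1 : ept (xg g) (yg g) t (yg g) ≤ 0 := ht g hg
        rw [exy_y, if_pos rfl] at h1
        exact le_antisymm h1 ht1.1
      rw [this, mul_zero]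
  refine (Finset.sum_le_sum fun g _ => hle g).trans ?_
  rw [← Finset.sum_filter]
  rw [Nat.cast_sum]
  refine le_of_eq ?_
  congr 1
  ext g
  simp

theorem mu_lower (i : Fin 3) (S : Set (Vt → ℝ)) (B : Finset (Fin 9))
    (h : ∀ g ∈ B, ∀ t ∈ Icc (0 : ℝ) 1, ept (xg g) (yg g) t ∈ S) :
    ((∑ g ∈ B, w i g : ℕ) : ENNReal) ≤ mu i S := by
  classical
  have hle : ∀ g : Fin 9, (if g ∈ B then (w i g : ENNReal) else 0) ≤ ((w i g : ENNReal) •
      Measure.map (ept (xg g) (yg g)) (volume.restrict (Icc (0 : ℝ) 1))) S := by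
    intro g
    by_cases hg : g ∈ B
    · rw [if_pos hg, Measure.smul_apply, smul_eq_mul]
      calc (w i g : ENNReal) = (w i g : ENNReal) * 1 := (mul_one _).symm
        _ ≤ _ := by
            gcongr
            refine le_trans ?_ (Measure.le_map_apply
              (continuous_ept (xg g) (yg g)).measurable.aemeasurable S)
            have h1 : Icc (0 : ℝ) 1 ⊆ ept (xg g) (yg g) ⁻¹' S := fun t ht => h g hg t ht
            calc (1 : ENNReal) = (volume.restrict (Icc (0 : ℝ) 1)) (Icc (0 : ℝ) 1) := by simp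
              _ ≤ _ := measure_mono h1
    · rw [if_neg hg]; exact zero_le
  unfold mu
  rw [Measure.finsetSum_apply]
  refine le_trans (le_of_eq ?_) (Finset.sum_le_sum fun g _ => hle g)
  rw [← Finset.sum_filter, Nat.cast_sum]
  congr 1
  ext g
  simp



theorem low (i j : Fin 3) : (40 : ENNReal) ≤ mu i (PP (bb i) j) := by
  have h := mu_lower i (PP (bb i) j) (Finset.univ.filter fun g => bb i g = j) (by
    intro g hg t ht
    rw [Finset.mem_filter] at hg
    have := PP_pend (bb i) g t ht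
    rw [hg.2] at this
    exact this)
  rw [Finset.sum_filter, bal i j] at h
  exact_mod_cast h

theorem result : ∃ (V : Type) (_ : Fintype V) (_ : DecidableEq V) (G : SimpleGraph V) (n : ℕ)
    (μ : Fin n → Measure (V → ℝ)), 0 < n ∧ (∀ i, IsFiniteMeasure (μ i)) ∧
    (∀ i p, μ i {p} = 0) ∧ (∀ i, μ i (cake G)ᶜ = 0) ∧
    ∀ X : Fin n → Set (V → ℝ), (∀ i, IsPiece G (X i) ∧ Conn (X i)) →
      (∀ i j, i ≠ j → Disjoint (X i) (X j)) →
      ∃ i, ∃ P : Fin n → Set (V → ℝ), IsPartition G P ∧ ∀ j, μ i (X i) < μ i (P j) := by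
  classical
  refine ⟨Vt, inferInstance, inferInstance, HG, 3, mu, by norm_num, mu_finite, mu_atom, mu_cake, ?_⟩
  intro X hX hd
  suffices h : ∃ i, mu i (X i) < 40 by
    obtain ⟨i, hi⟩ := h
    exact ⟨i, PP (bb i), PP_partition (bb i), fun j => hi.trans_le (low i j)⟩
  have hsup : ∀ i, ∃ B : Finset (Fin 9), (∀ p ∈ X i, ∀ g ∉ B, p (yg g) ≤ 0) ∧
      ((∀ g ∈ B, vpt (xg g) ∈ X i) ∨ ∃ g, B = {g}) := fun i =>
    support (X i) (hX i).1.1 (hX i).2.isPreconnected
  choose B hB1 hB2 using hsup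
  by_cases hs : ∃ i g, B i = {g}
  · obtain ⟨i, g, hg⟩ := hs
    refine ⟨i, ?_⟩
    have h := mu_upper i (X i) (B i) (hB1 i)
    rw [hg, Finset.sum_singleton] at h
    refine h.trans_lt ?_
    exact_mod_cast wmax i g
  · have hall : ∀ i, ∀ g ∈ B i, vpt (xg g) ∈ X i := by
      intro i
      rcases hB2 i with h | ⟨g, hg⟩
      · exact h
      · exact absurd ⟨i, g, hg⟩ hs
    obtain ⟨a, ha⟩ : ∃ a : Fin 9 → Fin 3, ∀ i g, g ∈ B i → a g = i := by
      refine ⟨fun g => if h : ∃ i, g ∈ B i then h.choose else 0, fun i g hg => ?_⟩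
      have hex : ∃ i, g ∈ B i := ⟨i, hg⟩
      show (if h : ∃ i, g ∈ B i then h.choose else 0) = i
      rw [dif_pos hex]
      by_contra hne
      exact Set.disjoint_left.mp (hd _ _ hne) (hall _ g hex.choose_spec) (hall i g hg)
    obtain ⟨i, hi⟩ := comb a
    refine ⟨i, (mu_upper i (X i) (B i) (hB1 i)).trans_lt ?_⟩
    have hle : ∑ g ∈ B i, w i g ≤ ∑ g, if a g = i then w i g else 0 := by
      rw [← Finset.sum_filter]
      refine Finset.sum_le_sum_of_subset fun g hg => ?_
      rw [Finset.mem_filter]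
      exact ⟨Finset.mem_univ _, ha i g hg⟩
    exact_mod_cast hle.trans_lt hi



end Pool.Agent.Results.MP_ee2dc8_co.MmsRankAddPos
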